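import Pool.Agent.Helper72.HZ.GRSb

/-!
# HZ: GRS, the graph of segments satisfies the graph hypotheses
-/

set_option autoImplicit false

open MulAction Pointwise

namespace Pool.Agent.Helper93.HZ

open Ctx

variable {G : Type} [Group G] (X : Ctx G)

/-- location of a node: the vertex `u` and the two directions -/
def grs_Loc (n : X.NS) (u a b : X.U) : Prop := match n with
  | .inl (x, y, u') => u' = u ∧ X.P.N x u = a ∧ X.P.N y u = b
  | .inr (C, u', w) => u' = u ∧ w = b ∧ ∃ v, C = cl X.D X.K v ∧ ¬ EllV X.D X.K v ∧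
      ((X.P.N v u = a ∧ X.P.M v u = b) ∨ (X.P.M v u = a ∧ X.P.N v u = b))

theorem grs_Loc_unique (hL : ST_CLU) (n : X.NS) {u a b u' a' b' : X.U}
    (h : grs_Loc X n u a b) (h' : grs_Loc X n u' a' b') : u = u' ∧ a = a' ∧ b = b' := by
  rcases n with ⟨x, y, u0⟩ | ⟨C, u0, w⟩
  · obtain ⟨h1, h2, h3⟩ := h
    obtain ⟨h1', h2', h3'⟩ := h'
    subst h1
    subst h1'
    exact ⟨rfl, h2.symm.trans h2', h3.symm.trans h3'⟩
  · obtain ⟨h1, h2, v, h3, h4, h5⟩ := h
    obtain ⟨h1', h2', v', h3', h4', h5'⟩ := h'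
    subst h1
    subst h1'
    subst h2
    subst h2'
    refine ⟨rfl, ?_, rfl⟩
    have hv' : v' ∈ cl X.D X.K v := by
      rw [← h3, h3']
      exact grs_cl_self v'
    obtain ⟨-, -, h6, -⟩ := hL G X.D X.K X.P X.nd v v' h4 hv'
    rcases h6 with ⟨h6, h7⟩ | ⟨h6, h7⟩
    · rw [h6, h7] at h5'
      rcases h5 with ⟨h5, h8⟩ | ⟨h5, h8⟩ <;> rcases h5' with ⟨h5', h8'⟩ | ⟨h5', h8'⟩
      · exact h5.symm.trans h5'
      · rw [← h5, ← h5', h8, h8']
      · rw [← h5, ← h5', h8, h8']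
      · exact h5.symm.trans h5'
    · rw [h6, h7] at h5'
      rcases h5 with ⟨h5, h8⟩ | ⟨h5, h8⟩ <;> rcases h5' with ⟨h5', h8'⟩ | ⟨h5', h8'⟩
      · rw [← h5, ← h5', h8, h8']
      · exact h5.symm.trans h5'
      · exact h5.symm.trans h5'
      · rw [← h5, ← h5', h8, h8']

theorem grs_Loc_smul (g : G) {n : X.NS} {u a b : X.U} (h : grs_Loc X n u a b) :
    grs_Loc X (g • n) (g • u) (g • a) (g • b) := by
  rcases n with ⟨x, y, u0⟩ | ⟨C, u0, w⟩
  · obtain ⟨h1, h2, h3⟩ := h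
    refine ⟨by rw [h1], ?_, ?_⟩
    · rw [X.P.eN, h2]
    · rw [X.P.eN, h3]
  · obtain ⟨h1, h2, v, h3, h4, h5⟩ := h
    refine ⟨by rw [h1], by rw [h2], g • v, ?_, fun h => h4 ((EllV_smul_iff g).1 h), ?_⟩
    · rw [grs_cl_smul, h3]
    · rw [X.P.eN, X.P.eM]
      rcases h5 with ⟨h5, h6⟩ | ⟨h5, h6⟩
      · exact Or.inl ⟨by rw [h5], by rw [h6]⟩
      · exact Or.inr ⟨by rw [h5], by rw [h6]⟩

/-- `segN` yields nodes, with the expected location -/
theorem grs_segN_spec (hT : ST_TFD) (hH : ST_HON) (hL : ST_CLU) {x y : X.V} {u : X.U}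
    (ha : X.K.adj x y) (hne : X.P.N x u ≠ X.P.N y u) {n : X.NS} (h : X.segN x y u = some n) :
    n ∈ X.NSs ∧ grs_Loc X n u (X.P.N x u) (X.P.N y u) := by
  have hNe : X.P.N x ≠ X.P.N y := fun h => hne (congrFun h u)
  unfold Ctx.segN at h
  by_cases c1 : Fr X.K x y ∧ X.Hon x y u
  · rw [if_pos c1] at h
    have h' : (Sum.inl (x, y, u) : X.NS) = n := Option.some.inj h
    subst h'
    exact ⟨⟨⟨ha, c1.1, hNe⟩, fun h => absurd h hne, c1.2⟩, rfl, rfl, rfl⟩
  · rw [if_neg c1] at h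
    by_cases c2 : ¬ EllV X.D X.K x ∧ (¬ Fr X.K x y ∨ X.Dp x y u)
    · rw [if_pos c2] at h
      by_cases c4 : FT X.D X.K x u (X.P.N y u)
      · rw [if_pos c4] at h
        have h' : (Sum.inr (cl X.D X.K x, u, X.P.N y u) : X.NS) = n := Option.some.inj h
        subst h'
        have hM : X.P.N y u = X.P.M x u := by
          rcases c2.2 with c5 | c5
          · have hy := grs_hyp_of_not_fr hT X.P c5 c2.1
            have hTF : TF X.D X.K x y := ⟨ha, c2.1, hy, c5⟩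
            have := (hL G X.D X.K X.P X.nd x y c2.1
              (Relation.ReflTransGen.single hTF)).2.2.2.1 hTF
            rw [this.1]
          · by_cases hf : Fr X.K x y
            · exact ((hH G X x y ⟨ha, hf, hNe⟩).2.2.2.2.2.2.2.2.1 u c5).2
            · have hy := grs_hyp_of_not_fr hT X.P hf c2.1
              have hTF : TF X.D X.K x y := ⟨ha, c2.1, hy, hf⟩
              have := (hL G X.D X.K X.P X.nd x y c2.1
                (Relation.ReflTransGen.single hTF)).2.2.2.1 hTF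
              rw [this.1]
        have hax : X.P.N x u ≠ X.P.M x u := by
          rw [← hM]
          exact hne
        refine ⟨⟨x, rfl, c2.1, Or.inr ?_, c4⟩, rfl, rfl, x, rfl, c2.1, Or.inl ⟨rfl, hM.symm⟩⟩
        rw [hM]
        exact grs_Ax2_M X.P c2.1 hax
      · rw [if_neg c4] at h
        exact absurd h (by simp)
    · rw [if_neg c2] at h
      by_cases c3 : ¬ EllV X.D X.K y ∧ X.Dp y x u
      · rw [if_pos c3] at h
        by_cases c4 : FT X.D X.K y u (X.P.N y u)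
        · rw [if_pos c4] at h
          have h' : (Sum.inr (cl X.D X.K y, u, X.P.N y u) : X.NS) = n := Option.some.inj h
          subst h'
          have hf : Fr X.K x y := by
            by_contra hf
            by_cases hx : EllV X.D X.K x
            · exact hf (grs_fr_ell hT X.P hx c3.1)
            · exact c2 ⟨hx, Or.inl hf⟩
          have hM : X.P.N x u = X.P.M y u :=
            ((hH G X y x ⟨X.K.symm _ _ ha, hf.symm, hNe.symm⟩).2.2.2.2.2.2.2.2.1 u c3.2).2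
          have hax : X.P.N y u ≠ X.P.M y u := by
            rw [← hM]
            exact hne.symm
          refine ⟨⟨y, rfl, c3.1, Or.inl ?_, c4⟩, rfl, rfl, y, rfl, c3.1,
            Or.inr ⟨hM.symm, rfl⟩⟩
          exact grs_Ax2_N X.P c3.1 hax
        · rw [if_neg c4] at h
          exact absurd h (by simp)
      · rw [if_neg c3] at h
        exact absurd h (by simp)

/-- the two directions of a band -/
def grs_d1 (b : Band G X) : X.U := if b.o then X.P.N b.x b.w else X.P.N b.y b.w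
def grs_d2 (b : Band G X) : X.U := if b.o then X.P.N b.y b.w else X.P.N b.x b.w

theorem grs_sS_spec (hT : ST_TFD) (hH : ST_HON) (hL : ST_CLU) {b : Band G X} (hb : b ∈ X.BN)
    {n : X.NS} (h : X.sS b = some n) :
    n ∈ X.NSs ∧ grs_Loc X n b.w (grs_d1 X b) (grs_d2 X b) := by
  obtain ⟨h1, h2, h3, h4⟩ := grs_BN_sides X hb
  unfold Ctx.sS at h
  unfold grs_d1 grs_d2
  cases ho : b.o
  · rw [ho] at h
    exact grs_segN_spec X hT hH hL (X.K.symm _ _ h1) h3.symm h
  · rw [ho] at h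
    exact grs_segN_spec X hT hH hL h1 h3 h

theorem grs_tS_spec (hT : ST_TFD) (hH : ST_HON) (hL : ST_CLU) {b : Band G X} (hb : b ∈ X.BN)
    {n : X.NS} (h : X.tS b = some n) :
    n ∈ X.NSs ∧ grs_Loc X n b.w (grs_d1 X b) (grs_d2 X b) := by
  obtain ⟨h1, h2, h3, h4⟩ := grs_BN_sides X hb
  unfold Ctx.tS at h
  unfold grs_d1 grs_d2
  rw [hb.2.1]
  cases ho : b.o
  · rw [ho] at h
    exact grs_segN_spec X hT hH hL (X.K.symm _ _ h2) h4.symm h
  · rw [ho] at h
    exact grs_segN_spec X hT hH hL h2 h4 h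

theorem grs_Loc_step (hT : ST_TFD) (hH : ST_HON) (hL : ST_CLU) {p q : X.NS}
    (h : stepR X.BN X.sS X.tS p q) {u a b : X.U} (hp : grs_Loc X p u a b) :
    grs_Loc X q u a b := by
  obtain ⟨y, hy, h | h⟩ := h
  · have h1 := (grs_sS_spec X hT hH hL hy h.1).2
    have h2 := (grs_tS_spec X hT hH hL hy h.2).2
    obtain ⟨e1, e2, e3⟩ := grs_Loc_unique X hL p hp h1
    rw [e1, e2, e3]
    exact h2
  · have h1 := (grs_sS_spec X hT hH hL hy h.1).2
    have h2 := (grs_tS_spec X hT hH hL hy h.2).2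
    obtain ⟨e1, e2, e3⟩ := grs_Loc_unique X hL p hp h2
    rw [e1, e2, e3]
    exact h1

theorem grs_Loc_comp (hT : ST_TFD) (hH : ST_HON) (hL : ST_CLU) {p q : X.NS}
    (h : q ∈ compR X.BN X.sS X.tS p) {u a b : X.U} (hp : grs_Loc X p u a b) :
    grs_Loc X q u a b := by
  have h' : Relation.ReflTransGen (stepR X.BN X.sS X.tS) p q := h
  clear h
  induction h' with
  | refl => exact hp
  | tail _ h2 ih => exact grs_Loc_step X hT hH hL h2 ih

theorem grs_Loc_exists (hA : ST_TFA) {n : X.NS} (hn : n ∈ X.NSs) :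
    ∃ u a b, grs_Loc X n u a b ∧ (X.D.T.Adj u a ∨ X.D.T.Adj u b) := by
  rcases n with ⟨x, y, u⟩ | ⟨C, u, w⟩
  · obtain ⟨h1, h2, h3⟩ := hn
    refine ⟨u, X.P.N x u, X.P.N y u, ⟨rfl, rfl, rfl⟩, ?_⟩
    rcases (X.P.fN x).1 u with hx | hx
    · rcases (X.P.fN y).1 u with hy | hy
      · exfalso
        apply h1.2.2
        refine (hA X.D.U X.D.T X.D.tree).2 _ _ (X.P.fN x) (X.P.fN y) ⟨u, fun k => ?_⟩
        have : (X.P.N x)^[k] u = u := Function.iterate_fixed hx k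
        rw [this, hx, hy]
      · exact Or.inr hy
    · exact Or.inl hx
  · obtain ⟨v, h1, h2, h3, h4⟩ := hn
    obtain ⟨h5, h6⟩ := grs_Ax2_cases X.P h3
    rcases h6 with h6 | h6
    · refine ⟨u, X.P.M v u, w, ⟨rfl, rfl, v, h1, h2, Or.inr ⟨rfl, h6.symm⟩⟩, Or.inr ?_⟩
      rcases (X.P.fN v).1 u with h7 | h7
      · exact absurd h7 ((X.P.hyp v h2).1 u)
      · rw [h6]
        exact h7
    · refine ⟨u, X.P.N v u, w, ⟨rfl, rfl, v, h1, h2, Or.inl ⟨rfl, h6.symm⟩⟩, Or.inr ?_⟩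
      rcases (X.P.fM v).1 u with h7 | h7
      · exact absurd h7 ((X.P.hyp v h2).2.1 u)
      · rw [h6]
        exact h7

theorem grs_NSs_smul (g : G) {n : X.NS} (hn : n ∈ X.NSs) : g • n ∈ X.NSs := by
  rcases n with ⟨x, y, u⟩ | ⟨C, u, w⟩
  · obtain ⟨h1, h2, h3⟩ := hn
    exact ⟨(grs_FC2_smul X g x y).2 h1, (grs_OnI_smul X g).2 h2,
      grs_Hon_smul' X g h1.1 h1.2.1 h3⟩
  · obtain ⟨v, h1, h2, h3, h4⟩ := hn
    refine ⟨g • v, ?_, fun h => h2 ((EllV_smul_iff g).1 h), (grs_Ax2_smul X.P g _ _ _).2 h3,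
      (grs_FT_smul g _ _ _).2 h4⟩
    rw [grs_cl_smul, h1]

theorem grs_NSs_free (g : G) {n : X.NS} (hn : n ∈ X.NSs) (hg : g • n = n) : g = 1 := by
  rcases n with ⟨x, y, u⟩ | ⟨C, u, w⟩
  · obtain ⟨h1, h2, h3⟩ := hn
    have h4 : ((g • x, g • y, g • u) : X.V × X.V × X.U) = (x, y, u) := Sum.inl.inj hg
    rw [Prod.mk.injEq, Prod.mk.injEq] at h4
    exact h1.2.1 g h4.1 h4.2.1
  · obtain ⟨v, h1, h2, h3, h4⟩ := hn
    have h5 : ((g • C, g • u, g • w) : Set X.V × X.U × X.U) = (C, u, w) := Sum.inr.inj hg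
    rw [Prod.mk.injEq, Prod.mk.injEq] at h5
    refine h4 g ?_ h5.2.1 h5.2.2
    rw [← h1]
    exact h5.1

theorem grs_NSs_fin (hC : ST_TFC) (hH : ST_HON) : FinOrb G X.NSs := by
  have h1 : FinOrb G {n : X.NS | n ∈ X.NSs ∧ ∃ p, n = Sum.inl p} := by
    refine grs_finOrb_image
      (fun p : (X.V × X.V) × X.U => (Sum.inl (p.1.1, p.1.2, p.2) : X.NS))
      (grs_finOrb_Hon X hH) (fun g a _ => rfl) ?_
    rintro n ⟨hn, ⟨x, y, u⟩, rfl⟩
    exact ⟨((x, y), u), ⟨hn.1, hn.2.2⟩, rfl⟩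
  have h2 : FinOrb G {n : X.NS | n ∈ X.NSs ∧ ∃ p, n = Sum.inr p} := by
    refine grs_finOrb_image
      (fun p : X.V × X.U × X.U => (Sum.inr (cl X.D X.K p.1, p.2.1, p.2.2) : X.NS))
      (grs_finOrb_Ax2 hC X.P) (fun g a _ => ?_) ?_
    · show (Sum.inr (cl X.D X.K (g • a.1), g • a.2.1, g • a.2.2) : X.NS) = _
      rw [grs_cl_smul]
      rfl
    · rintro n ⟨hn, ⟨C, u, w⟩, rfl⟩
      obtain ⟨v, h1, h2, h3, h4⟩ := hn
      refine ⟨(v, u, w), ⟨h2, h3⟩, ?_⟩
      show (Sum.inr (cl X.D X.K v, u, w) : X.NS) = _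
      rw [h1]
  refine grs_finOrb_mono (grs_finOrb_union h1 h2) ?_
  intro n hn
  rcases n with p | p
  · exact Or.inl ⟨hn, p, rfl⟩
  · exact Or.inr ⟨hn, p, rfl⟩

theorem st_GRS (hT : ST_TFD) (hA : ST_TFA) (hC : ST_TFC) (hI : ST_INF) (hH : ST_HON)
    (hL : ST_CLU) : ST_GRS := by
  intro G _ X
  refine
    { smulX := fun g x hx => grs_NSs_smul X g hx
      smulY := fun g y hy => grs_BN_smul' X g hy
      freeX := fun g x hx hg => grs_NSs_free X g hx hg
      freeY := fun g y hy hg => grs_BN_free X g hy hg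
      finX := grs_NSs_fin X hC hH
      finY := grs_finOrb_BN X hH
      sN := fun y hy x hx => (grs_sS_spec X hT hH hL hy hx).1
      tN := fun y hy x hx => (grs_tS_spec X hT hH hL hy hx).1
      sE := ?_
      tE := ?_
      triv := ?_ }
  · intro g b hb
    obtain ⟨h1, h2, h3, h4⟩ := grs_BN_sides X hb
    show (if b.o then X.segN (g • b.x) (g • b.y) (g • b.w)
      else X.segN (g • b.y) (g • b.x) (g • b.w)) = _
    unfold Ctx.sS
    cases b.o
    · exact grs_segN_smul X hT g (X.K.symm _ _ h1)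
    · exact grs_segN_smul X hT g h1
  · intro g b hb
    obtain ⟨h1, h2, h3, h4⟩ := grs_BN_sides X hb
    show (if b.o then X.segN (g • b.x) (g • b.z) (g • b.w)
      else X.segN (g • b.z) (g • b.x) (g • b.w)) = _
    unfold Ctx.tS
    cases b.o
    · exact grs_segN_smul X hT g (X.K.symm _ _ h2)
    · exact grs_segN_smul X hT g h2
  · intro p hp hgood g hg
    obtain ⟨u, a, b, hloc, hadj⟩ := grs_Loc_exists X hA hp
    have hgp : g • p ∈ compR X.BN X.sS X.tS p := by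
      rw [← hg]
      exact Set.smul_mem_smul_set Relation.ReflTransGen.refl
    have h1 := grs_Loc_comp X hT hH hL hgp hloc
    have h2 := grs_Loc_smul X g hloc
    obtain ⟨e1, e2, e3⟩ := grs_Loc_unique X hL _ h2 h1
    rcases hadj with hadj | hadj
    · exact grs_triv hI X.D _ _ _ p (fun g' hg' => grs_NSs_free X g' hp hg') hgood hadj hg e1 e2
    · exact grs_triv hI X.D _ _ _ p (fun g' hg' => grs_NSs_free X g' hp hg') hgood hadj hg e1 e3

end Pool.Agent.Helper93.HZ
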