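import Pool.Agent.Helper93.HZ.Spec3

/-!
# HZ: equivariance lemmas for honest, deep, nodes, bands (shared by GRS, GRP, GRQ, ...)
-/

set_option autoImplicit false

open MulAction Pointwise

namespace Pool.Agent.Helper93.HZ

open Ctx

variable {G : Type} [Group G]

theorem grs_fr_ell (hT : ST_TFD) {D : Setup G} {K : Cx G} (P : Pts D K) {x y : K.V}
    (hx : EllV D K x) (hy : ¬ EllV D K y) : Fr K x y := by
  intro g gx gy
  obtain ⟨u, hu⟩ := hx
  obtain ⟨hN, hM, ⟨z, k, hz, hzi, hk, hax⟩, ⟨u1, hu1⟩⟩ := P.hyp y hy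
  have hg : g ∈ stabilizer G y := gy
  rw [hz, Subgroup.mem_zpowers_iff] at hg
  obtain ⟨n, rfl⟩ := hg
  by_contra hne
  have hEll : Ell D z := by
    have h1 := (hT G D z).1
    have h2 := hu _ gx
    rcases lt_trichotomy n 0 with hn | hn | hn
    · refine h1 n.natAbs (by omega) ⟨u, ?_⟩
      have h3 : z ^ (n.natAbs) = (z ^ n)⁻¹ := by
        rw [← zpow_natCast, ← zpow_neg]
        congr 1
        omega
      rw [h3, inv_smul_eq_iff]
      exact h2.symm
    · exact absurd (by rw [hn, zpow_zero]) hne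
    · refine h1 n.natAbs (by omega) ⟨u, ?_⟩
      have h3 : z ^ (n.natAbs) = z ^ n := by
        rw [← zpow_natCast]
        congr 1
        omega
      rw [h3]
      exact h2
  obtain ⟨u', hu'⟩ := hEll
  apply hy
  refine ⟨u', fun g' hg' => ?_⟩
  have h4 : g' ∈ stabilizer G y := hg'
  rw [hz, Subgroup.mem_zpowers_iff] at h4
  obtain ⟨m, rfl⟩ := h4
  have h5 : z ∈ stabilizer G u' := hu'
  exact Subgroup.zpow_mem _ h5 m

/-- both hyperbolic or both elliptic if not free -/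
theorem grs_hyp_of_not_fr (hT : ST_TFD) {D : Setup G} {K : Cx G} (P : Pts D K) {x y : K.V}
    (h : ¬ Fr K x y) (hx : ¬ EllV D K x) : ¬ EllV D K y := fun hy =>
  h (grs_fr_ell hT P hy hx).symm

theorem grs_TF_smul {D : Setup G} {K : Cx G} (g : G) {x y : K.V} (h : TF D K x y) :
    TF D K (g • x) (g • y) :=
  ⟨K.smul_adj g _ _ h.1, fun h' => h.2.1 ((EllV_smul_iff g).1 h'),
    fun h' => h.2.2.1 ((EllV_smul_iff g).1 h'), fun h' => h.2.2.2 ((Fr_smul_iff g).1 h')⟩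

theorem grs_cl_smul {D : Setup G} {K : Cx G} (g : G) (v : K.V) :
    cl D K (g • v) = g • cl D K v := by
  have key : ∀ (g : G) (v v' : K.V), v' ∈ cl D K v → g • v' ∈ cl D K (g • v) := by
    intro g v v' h
    have h' : Relation.ReflTransGen (TF D K) v v' := h
    show Relation.ReflTransGen (TF D K) (g • v) (g • v')
    induction h' with
    | refl => exact Relation.ReflTransGen.refl
    | tail _ h2 ih => exact Relation.ReflTransGen.tail (ih ‹_›) (grs_TF_smul g h2)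
  ext v'
  rw [Set.mem_smul_set_iff_inv_smul_mem]
  constructor
  · intro h
    have := key g⁻¹ _ _ h
    rwa [inv_smul_smul] at this
  · intro h
    have := key g _ _ h
    rwa [smul_inv_smul] at this

theorem grs_cl_self {D : Setup G} {K : Cx G} (v : K.V) : v ∈ cl D K v :=
  Relation.ReflTransGen.refl

theorem grs_FT_smul' {D : Setup G} {K : Cx G} (g : G) {v : K.V} {u w : D.U}
    (h : FT D K v u w) : FT D K (g • v) (g • u) (g • w) := by
  intro k hk hu hw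
  rw [grs_cl_smul] at hk
  have h1 : (g⁻¹ * k * g) • cl D K v = cl D K v := by
    rw [mul_smul, mul_smul, hk, inv_smul_smul]
  have h2 : (g⁻¹ * k * g) • u = u := by
    rw [mul_smul, mul_smul, hu, inv_smul_smul]
  have h3 : (g⁻¹ * k * g) • w = w := by
    rw [mul_smul, mul_smul, hw, inv_smul_smul]
  have h4 := h _ h1 h2 h3
  have h5 : k = g * (g⁻¹ * k * g) * g⁻¹ := by group
  rw [h5, h4]
  group

theorem grs_FT_smul {D : Setup G} {K : Cx G} (g : G) (v : K.V) (u w : D.U) :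
    FT D K (g • v) (g • u) (g • w) ↔ FT D K v u w := by
  constructor
  · intro h
    have := grs_FT_smul' g⁻¹ h
    simpa using this
  · exact grs_FT_smul' g

theorem grs_Ax_smul {D : Setup G} {K : Cx G} (P : Pts D K) (g : G) (v : K.V) (u w : D.U) :
    Ax P (g • v) (g • u) (g • w) ↔ Ax P v u w := by
  constructor
  · intro h
    have := Ax_smul P g⁻¹ h
    simpa using this
  · exact Ax_smul P g

theorem grs_Ax2_smul {D : Setup G} {K : Cx G} (P : Pts D K) (g : G) (v : K.V) (u w : D.U) :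
    Ax2 P (g • v) (g • u) (g • w) ↔ Ax2 P v u w := by
  unfold Ax2
  rw [grs_Ax_smul, grs_Ax_smul]

variable (X : Ctx G)

theorem grs_FC2_smul (g : G) (x y : X.V) : X.FC2 (g • x) (g • y) ↔ X.FC2 x y := by
  unfold Ctx.FC2
  rw [adj_smul_iff, Fr_smul_iff, Ne, Ne, X.P.N_eq_smul]

theorem grs_FC2_symm {x y : X.V} (h : X.FC2 x y) : X.FC2 y x :=
  ⟨X.K.symm _ _ h.1, h.2.1.symm, h.2.2.symm⟩

theorem grs_Hon_smul' (g : G) {x y : X.V} {u : X.U} (ha : X.K.adj x y) (hf : Fr X.K x y)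
    (h : X.Hon x y u) : X.Hon (g • x) (g • y) (g • u) := by
  obtain ⟨⟨k, hk⟩, ⟨l, hl⟩⟩ := h
  refine ⟨⟨k, ?_⟩, ⟨l, ?_⟩⟩
  · rw [X.Q.eq g x y ha hf, X.P.N_iter, hk]
  · rw [X.Q.eq g y x (X.K.symm _ _ ha) hf.symm, X.P.N_iter, hl]

theorem grs_Hon_smul (g : G) {x y : X.V} {u : X.U} (ha : X.K.adj x y) (hf : Fr X.K x y) :
    X.Hon (g • x) (g • y) (g • u) ↔ X.Hon x y u := by
  constructor
  · intro h
    have := grs_Hon_smul' X g⁻¹ (X.K.smul_adj g _ _ ha) (Fr_smul g hf) h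
    simpa using this
  · exact grs_Hon_smul' X g ha hf

theorem grs_Dp_smul' (g : G) {x y : X.V} {u : X.U} (ha : X.K.adj x y) (hf : Fr X.K x y)
    (h : X.Dp x y u) : X.Dp (g • x) (g • y) (g • u) := by
  obtain ⟨h1, k, hk⟩ := h
  refine ⟨fun h => h1 ((EllV_smul_iff g).1 h), k, ?_⟩
  rw [X.Q.eq g x y ha hf, X.P.N_iter, hk]

theorem grs_Dp_smul (g : G) {x y : X.V} {u : X.U} (ha : X.K.adj x y) (hf : Fr X.K x y) :
    X.Dp (g • x) (g • y) (g • u) ↔ X.Dp x y u := by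
  constructor
  · intro h
    have := grs_Dp_smul' X g⁻¹ (X.K.smul_adj g _ _ ha) (Fr_smul g hf) h
    simpa using this
  · exact grs_Dp_smul' X g ha hf

theorem grs_OnI_smul (g : G) {x y : X.V} {u : X.U} :
    OnI (X.P.N (g • x)) (X.P.N (g • y)) (g • u) ↔ OnI (X.P.N x) (X.P.N y) u := by
  unfold OnI
  rw [X.P.eN, X.P.eN, smul_left_cancel_iff, smul_left_cancel_iff]

theorem grs_Cross_smul' (g : G) {x y : X.V} {u w : X.U} (h : Cross X.P x y u w) :
    Cross X.P (g • x) (g • y) (g • u) (g • w) := by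
  refine ⟨Tadj_smul g h.1, ?_, ?_⟩
  · rw [X.P.eN, h.2.1]
  · rw [X.P.eN, h.2.2]

theorem grs_Cross_smul (g : G) (x y : X.V) (u w : X.U) :
    Cross X.P (g • x) (g • y) (g • u) (g • w) ↔ Cross X.P x y u w := by
  constructor
  · intro h
    have := grs_Cross_smul' X g⁻¹ h
    simpa using this
  · exact grs_Cross_smul' X g

/-- membership in `BN` is invariant -/
theorem grs_BN_smul' (g : G) {b : Band G X} (h : b ∈ X.BN) : g • b ∈ X.BN := by
  obtain ⟨h1, h2, h3, h4, h5⟩ := h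
  have hxy : X.K.adj b.x b.y := X.K.tri_adj _ _ _ h1
  have hxz : X.K.adj b.x b.z :=
    X.K.symm _ _ (X.K.tri_adj _ _ _ (X.K.tri_rot _ _ _ (X.K.tri_rot _ _ _ h1)))
  refine ⟨X.K.smul_tri g _ _ _ h1, ?_, ?_, ?_, ?_⟩
  · show X.P.N (g • b.y) (g • b.w) = X.P.N (g • b.z) (g • b.w)
    rw [X.P.eN, X.P.eN, h2]
  · show X.P.N (g • b.y) (g • b.w) ≠ g • b.w
    rw [X.P.eN]
    exact fun h => h3 (smul_left_cancel g h)
  · show X.P.N (g • b.x) (g • b.w) ≠ X.P.N (g • b.y) (g • b.w)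
    rw [X.P.eN, X.P.eN]
    exact fun h => h4 (smul_left_cancel g h)
  · rcases h5 with h5 | h5
    · exact Or.inl ⟨Fr_smul g h5.1, grs_Hon_smul' X g hxy h5.1 h5.2⟩
    · exact Or.inr ⟨Fr_smul g h5.1, grs_Hon_smul' X g hxz h5.1 h5.2⟩

theorem grs_BN_smul (g : G) (b : Band G X) : g • b ∈ X.BN ↔ b ∈ X.BN := by
  constructor
  · intro h
    have := grs_BN_smul' X g⁻¹ h
    rwa [inv_smul_smul] at this
  · exact grs_BN_smul' X g

theorem grs_BN_free (g : G) {b : Band G X} (h : b ∈ X.BN) (hg : g • b = b) : g = 1 := by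
  obtain ⟨h1, h2, h3, h4, h5⟩ := h
  have hx : g • b.x = b.x := congrArg Band.x hg
  have hy : g • b.y = b.y := congrArg Band.y hg
  have hz : g • b.z = b.z := congrArg Band.z hg
  rcases h5 with h5 | h5
  · exact h5.1 g hx hy
  · exact h5.1 g hx hz

/-- data of a band: adjacency and separation of both sides -/
theorem grs_BN_sides {b : Band G X} (h : b ∈ X.BN) :
    X.K.adj b.x b.y ∧ X.K.adj b.x b.z ∧ X.P.N b.x b.w ≠ X.P.N b.y b.w ∧
      X.P.N b.x b.w ≠ X.P.N b.z b.w := by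
  obtain ⟨h1, h2, h3, h4, h5⟩ := h
  refine ⟨X.K.tri_adj _ _ _ h1, ?_, h4, ?_⟩
  · exact X.K.symm _ _ (X.K.tri_adj _ _ _ (X.K.tri_rot _ _ _ (X.K.tri_rot _ _ _ h1)))
  · rw [← h2]
    exact h4

/-- equivariance of `segN` -/
theorem grs_segN_smul (hT : ST_TFD) (g : G) {x y : X.V} {u : X.U} (ha : X.K.adj x y) :
    X.segN (g • x) (g • y) (g • u) = (X.segN x y u).map (g • ·) := by
  unfold Ctx.segN
  by_cases hf : Fr X.K x y
  · have e1 : (Fr X.K (g • x) (g • y) ∧ X.Hon (g • x) (g • y) (g • u)) ↔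
        (Fr X.K x y ∧ X.Hon x y u) := by
      rw [Fr_smul_iff, grs_Hon_smul X g ha hf]
    have e2 : (¬ EllV X.D X.K (g • x) ∧ (¬ Fr X.K (g • x) (g • y) ∨
        X.Dp (g • x) (g • y) (g • u))) ↔
        (¬ EllV X.D X.K x ∧ (¬ Fr X.K x y ∨ X.Dp x y u)) := by
      rw [Fr_smul_iff, grs_Dp_smul X g ha hf, EllV_smul_iff]
    have e3 : (¬ EllV X.D X.K (g • y) ∧ X.Dp (g • y) (g • x) (g • u)) ↔
        (¬ EllV X.D X.K y ∧ X.Dp y x u) := by
      rw [grs_Dp_smul X g (X.K.symm _ _ ha) hf.symm, EllV_smul_iff]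
    by_cases c1 : Fr X.K x y ∧ X.Hon x y u
    · rw [if_pos c1, if_pos (e1.2 c1)]
      rfl
    · rw [if_neg c1, if_neg (fun h => c1 (e1.1 h))]
      by_cases c2 : ¬ EllV X.D X.K x ∧ (¬ Fr X.K x y ∨ X.Dp x y u)
      · rw [if_pos c2, if_pos (e2.2 c2)]
        rw [X.P.eN]
        by_cases c4 : FT X.D X.K x u (X.P.N y u)
        · rw [if_pos c4, if_pos ((grs_FT_smul g _ _ _).2 c4), grs_cl_smul]
          rfl
        · rw [if_neg c4, if_neg (fun h => c4 ((grs_FT_smul g _ _ _).1 h))]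
          rfl
      · rw [if_neg c2, if_neg (fun h => c2 (e2.1 h))]
        by_cases c3 : ¬ EllV X.D X.K y ∧ X.Dp y x u
        · rw [if_pos c3, if_pos (e3.2 c3)]
          rw [X.P.eN]
          by_cases c4 : FT X.D X.K y u (X.P.N y u)
          · rw [if_pos c4, if_pos ((grs_FT_smul g _ _ _).2 c4), grs_cl_smul]
            rfl
          · rw [if_neg c4, if_neg (fun h => c4 ((grs_FT_smul g _ _ _).1 h))]
            rfl
        · rw [if_neg c3, if_neg (fun h => c3 (e3.1 h))]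
          rfl
  · have hf' : ¬ Fr X.K (g • x) (g • y) := fun h => hf ((Fr_smul_iff g).1 h)
    have n1 : ∀ p : Prop, ¬ (Fr X.K x y ∧ p) := fun p h => hf h.1
    have n2 : ∀ p : Prop, ¬ (Fr X.K (g • x) (g • y) ∧ p) := fun p h => hf' h.1
    rw [if_neg (n2 _), if_neg (n1 _)]
    by_cases hx : EllV X.D X.K x
    · have hy : EllV X.D X.K y := by
        by_contra hy
        exact hf (grs_fr_ell hT X.P hx hy)
      have m1 : ∀ p : Prop, ¬ (¬ EllV X.D X.K x ∧ p) := fun p h => h.1 hx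
      have m2 : ∀ p : Prop, ¬ (¬ EllV X.D X.K y ∧ p) := fun p h => h.1 hy
      have m3 : ∀ p : Prop, ¬ (¬ EllV X.D X.K (g • x) ∧ p) := fun p h => h.1 (EllV_smul g hx)
      have m4 : ∀ p : Prop, ¬ (¬ EllV X.D X.K (g • y) ∧ p) := fun p h => h.1 (EllV_smul g hy)
      rw [if_neg (m3 _), if_neg (m4 _), if_neg (m1 _), if_neg (m2 _)]
      rfl
    · have hx' : ¬ EllV X.D X.K (g • x) := fun h => hx ((EllV_smul_iff g).1 h)
      have p1 : ¬ EllV X.D X.K (g • x) ∧ (¬ Fr X.K (g • x) (g • y) ∨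
        X.Dp (g • x) (g • y) (g • u)) := ⟨hx', Or.inl hf'⟩
      have p2 : ¬ EllV X.D X.K x ∧ (¬ Fr X.K x y ∨ X.Dp x y u) := ⟨hx, Or.inl hf⟩
      rw [if_pos p1, if_pos p2, X.P.eN]
      by_cases c4 : FT X.D X.K x u (X.P.N y u)
      · rw [if_pos c4, if_pos ((grs_FT_smul g _ _ _).2 c4), grs_cl_smul]
        rfl
      · rw [if_neg c4, if_neg (fun h => c4 ((grs_FT_smul g _ _ _).1 h))]
        rfl

/-- equivariance of `ptN` -/
theorem grs_ptN_smul (hT : ST_TFD) (g : G) {x y : X.V} {u w : X.U} (ha : X.K.adj x y) :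
    X.ptN (g • x) (g • y) (g • u) (g • w) = (X.ptN x y u w).map (g • ·) := by
  unfold Ctx.ptN
  by_cases hf : Fr X.K x y
  · have e1 : (Fr X.K (g • x) (g • y) ∧ X.Hon (g • x) (g • y) (g • u) ∧
        X.Hon (g • x) (g • y) (g • w)) ↔ (Fr X.K x y ∧ X.Hon x y u ∧ X.Hon x y w) := by
      rw [Fr_smul_iff, grs_Hon_smul X g ha hf, grs_Hon_smul X g ha hf]
    have e2 : (¬ EllV X.D X.K (g • x) ∧ (¬ Fr X.K (g • x) (g • y) ∨
        X.Dp (g • x) (g • y) (g • u))) ↔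
        (¬ EllV X.D X.K x ∧ (¬ Fr X.K x y ∨ X.Dp x y u)) := by
      rw [Fr_smul_iff, grs_Dp_smul X g ha hf, EllV_smul_iff]
    have e3 : (¬ EllV X.D X.K (g • y) ∧ X.Dp (g • y) (g • x) (g • w)) ↔
        (¬ EllV X.D X.K y ∧ X.Dp y x w) := by
      rw [grs_Dp_smul X g (X.K.symm _ _ ha) hf.symm, EllV_smul_iff]
    by_cases c1 : Fr X.K x y ∧ X.Hon x y u ∧ X.Hon x y w
    · rw [if_pos c1, if_pos (e1.2 c1)]
      rfl
    · rw [if_neg c1, if_neg (fun h => c1 (e1.1 h))]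
      by_cases c2 : ¬ EllV X.D X.K x ∧ (¬ Fr X.K x y ∨ X.Dp x y u)
      · rw [if_pos c2, if_pos (e2.2 c2)]
        by_cases c4 : FT X.D X.K x u w
        · rw [if_pos c4, if_pos ((grs_FT_smul g _ _ _).2 c4), grs_cl_smul]
          rfl
        · rw [if_neg c4, if_neg (fun h => c4 ((grs_FT_smul g _ _ _).1 h))]
          rfl
      · rw [if_neg c2, if_neg (fun h => c2 (e2.1 h))]
        by_cases c3 : ¬ EllV X.D X.K y ∧ X.Dp y x w
        · rw [if_pos c3, if_pos (e3.2 c3)]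
          by_cases c4 : FT X.D X.K y u w
          · rw [if_pos c4, if_pos ((grs_FT_smul g _ _ _).2 c4), grs_cl_smul]
            rfl
          · rw [if_neg c4, if_neg (fun h => c4 ((grs_FT_smul g _ _ _).1 h))]
            rfl
        · rw [if_neg c3, if_neg (fun h => c3 (e3.1 h))]
          rfl
  · have hf' : ¬ Fr X.K (g • x) (g • y) := fun h => hf ((Fr_smul_iff g).1 h)
    have n1 : ∀ p : Prop, ¬ (Fr X.K x y ∧ p) := fun p h => hf h.1
    have n2 : ∀ p : Prop, ¬ (Fr X.K (g • x) (g • y) ∧ p) := fun p h => hf' h.1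
    rw [if_neg (n2 _), if_neg (n1 _)]
    by_cases hx : EllV X.D X.K x
    · have hy : EllV X.D X.K y := by
        by_contra hy
        exact hf (grs_fr_ell hT X.P hx hy)
      have m1 : ∀ p : Prop, ¬ (¬ EllV X.D X.K x ∧ p) := fun p h => h.1 hx
      have m2 : ∀ p : Prop, ¬ (¬ EllV X.D X.K y ∧ p) := fun p h => h.1 hy
      have m3 : ∀ p : Prop, ¬ (¬ EllV X.D X.K (g • x) ∧ p) := fun p h => h.1 (EllV_smul g hx)
      have m4 : ∀ p : Prop, ¬ (¬ EllV X.D X.K (g • y) ∧ p) := fun p h => h.1 (EllV_smul g hy)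
      rw [if_neg (m3 _), if_neg (m4 _), if_neg (m1 _), if_neg (m2 _)]
      rfl
    · have hx' : ¬ EllV X.D X.K (g • x) := fun h => hx ((EllV_smul_iff g).1 h)
      have p1 : ¬ EllV X.D X.K (g • x) ∧ (¬ Fr X.K (g • x) (g • y) ∨
        X.Dp (g • x) (g • y) (g • u)) := ⟨hx', Or.inl hf'⟩
      have p2 : ¬ EllV X.D X.K x ∧ (¬ Fr X.K x y ∨ X.Dp x y u) := ⟨hx, Or.inl hf⟩
      rw [if_pos p1, if_pos p2]
      by_cases c4 : FT X.D X.K x u w
      · rw [if_pos c4, if_pos ((grs_FT_smul g _ _ _).2 c4), grs_cl_smul]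
        rfl
      · rw [if_neg c4, if_neg (fun h => c4 ((grs_FT_smul g _ _ _).1 h))]
        rfl

/-- on an axis: if `N u ≠ M u` then `N (M u) = u` (fields `N`, `M`, `M u ≠ u`) -/
theorem grs_field_back {U : Type} {T : SimpleGraph U} {N M : U → U} (hN : IsField T N)
    (hM : IsField T M) {u : U} (h : N u ≠ M u) (h' : M u ≠ u) : N (M u) = u := by
  have hadj : T.Adj u (M u) := by
    rcases hM.1 u with h1 | h1
    · exact absurd h1 h'
    · exact h1
  have h2 := hN.2 u (M u) hadj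
  by_contra h3
  exact h (h2.2 h3)

end Pool.Agent.Helper93.HZ
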