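import Pool.Agent.Helper72.HZ.GRSa

/-!
# HZ: finiteness of orbits of nodes and bands (shared by GRS, GRP, GRQ, ...)
-/

set_option autoImplicit false

open MulAction Pointwise

namespace Pool.Agent.Helper93.HZ

open Ctx

variable {G : Type} [Group G]

theorem grs_reps {α : Type} [MulAction G α] {S : Set α} (h : FinOrb G S) :
    ∃ F : Set α, F.Finite ∧ F ⊆ S ∧ ∀ x ∈ S, ∃ f ∈ F, ∃ g : G, g • f = x := by
  obtain ⟨F, hF, hb⟩ := Set.SurjOn.exists_bijOn_subset
    (Set.surjOn_image (fun x : α => orbit G x) S)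
  refine ⟨F, hb.finite_iff_finite.2 h, hF, fun x hx => ?_⟩
  obtain ⟨f, hf, hfx⟩ := hb.surjOn (Set.mem_image_of_mem _ hx)
  have h1 : orbit G x = orbit G f := hfx.symm
  have h2 : x ∈ orbit G f := by
    rw [← h1]
    exact mem_orbit_self x
  obtain ⟨g, hg⟩ := h2
  exact ⟨f, hf, g, hg⟩

theorem grs_finOrb_of {α : Type} [MulAction G α] {S F : Set α} (hF : F.Finite)
    (h : ∀ x ∈ S, ∃ f ∈ F, ∃ g : G, g • f = x) : FinOrb G S := by
  refine (hF.image (fun x : α => orbit G x)).subset ?_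
  rintro _ ⟨x, hx, rfl⟩
  obtain ⟨f, hf, g, rfl⟩ := h x hx
  exact ⟨f, hf, (orbit_smul g f).symm⟩

theorem grs_finOrb_mono {α : Type} [MulAction G α] {S T : Set α} (hS : FinOrb G S)
    (h : T ⊆ S) : FinOrb G T :=
  Set.Finite.subset hS (Set.image_mono h)

theorem grs_finOrb_union {α : Type} [MulAction G α] {S T : Set α} (hS : FinOrb G S)
    (hT : FinOrb G T) : FinOrb G (S ∪ T) := by
  unfold FinOrb
  rw [Set.image_union]
  exact Set.Finite.union hS hT

theorem grs_finOrb_sigma {α β : Type} [MulAction G α] [MulAction G β] {S : Set α}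
    (B : α → Set β) (hS : FinOrb G S) (hB : ∀ d ∈ S, (B d).Finite)
    (hE : ∀ (g : G) (d : α), d ∈ S → ∀ b, b ∈ B (g • d) → g⁻¹ • b ∈ B d) :
    FinOrb G {p : α × β | p.1 ∈ S ∧ p.2 ∈ B p.1} := by
  obtain ⟨F, hF, hFS, hr⟩ := grs_reps hS
  have hfin : (⋃ f ∈ F, (fun b => (f, b)) '' (B f)).Finite :=
    hF.biUnion (fun f hf => (hB f (hFS hf)).image _)
  refine grs_finOrb_of hfin ?_
  rintro ⟨d, b⟩ ⟨hd, hb⟩
  obtain ⟨f, hf, g, rfl⟩ := hr d hd
  refine ⟨(f, g⁻¹ • b), ?_, g, ?_⟩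
  · simp only [Set.mem_iUnion]
    exact ⟨f, hf, g⁻¹ • b, hE g f (hFS hf) b hb, rfl⟩
  · show (g • f, g • g⁻¹ • b) = (g • f, b)
    rw [smul_inv_smul]

theorem grs_finOrb_image {α β : Type} [MulAction G α] [MulAction G β] {S : Set α} {T : Set β}
    (φ : α → β) (hS : FinOrb G S) (hφ : ∀ (g : G) a, a ∈ S → φ (g • a) = g • φ a)
    (hT : ∀ t ∈ T, ∃ a ∈ S, φ a = t) : FinOrb G T := by
  obtain ⟨F, hF, hFS, hr⟩ := grs_reps hS
  refine grs_finOrb_of (hF.image φ) ?_
  intro t ht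
  obtain ⟨a, ha, rfl⟩ := hT t ht
  obtain ⟨f, hf, g, rfl⟩ := hr a ha
  exact ⟨φ f, ⟨f, hf, rfl⟩, g, (hφ g f (hFS hf)).symm⟩

/-- triples forming a triangle -/
theorem grs_finOrb_tri (K : Cx G) : FinOrb G {p : K.V × K.V × K.V | K.tri p.1 p.2.1 p.2.2} := by
  obtain ⟨F, hF, hFS, hr⟩ := grs_reps K.finT
  have hfin : (⋃ s ∈ F, s ×ˢ (s ×ˢ s)).Finite := by
    refine hF.biUnion (fun s hs => ?_)
    obtain ⟨x, y, z, h, rfl⟩ := hFS hs
    have h1 : ({x, y, z} : Set K.V).Finite := by simp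
    exact h1.prod (h1.prod h1)
  refine grs_finOrb_of hfin ?_
  rintro ⟨x, y, z⟩ h
  obtain ⟨s, hs, g, hg⟩ := hr {x, y, z} ⟨x, y, z, h, rfl⟩
  have hx : x ∈ g • s := by rw [hg]; simp
  have hy : y ∈ g • s := by rw [hg]; simp
  have hz : z ∈ g • s := by rw [hg]; simp
  obtain ⟨x', hx', rfl⟩ := hx
  obtain ⟨y', hy', rfl⟩ := hy
  obtain ⟨z', hz', rfl⟩ := hz
  refine ⟨(x', y', z'), ?_, g, rfl⟩
  simp only [Set.mem_iUnion]
  exact ⟨s, hs, hx', hy', hz'⟩

/-- vertices -/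
theorem grs_finOrb_V (K : Cx G) : FinOrb G (Set.univ : Set K.V) := by
  refine grs_finOrb_image (fun p : K.V × K.V => p.1) K.finE (fun g a _ => rfl) ?_
  intro x _
  obtain ⟨y, hy⟩ := K.nbr x
  exact ⟨(x, y), hy, rfl⟩

variable (X : Ctx G)

/-- free crossing darts -/
theorem grs_finOrb_FC2 : FinOrb G {p : X.V × X.V | X.FC2 p.1 p.2} :=
  grs_finOrb_mono X.K.finE (fun _ h => h.1)

/-- honest vertices of free crossing darts -/
theorem grs_finOrb_Hon (hH : ST_HON) :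
    FinOrb G {p : (X.V × X.V) × X.U | X.FC2 p.1.1 p.1.2 ∧ X.Hon p.1.1 p.1.2 p.2} := by
  refine grs_finOrb_sigma (S := {p : X.V × X.V | X.FC2 p.1 p.2})
    (fun p => {u | X.Hon p.1 p.2 u}) (grs_finOrb_FC2 X) ?_ ?_
  · rintro ⟨x, y⟩ hd
    exact (hH G X x y hd).2.2.2.2.2.1
  · rintro g ⟨x, y⟩ hd u hu
    have h1 : X.Hon (g • x) (g • y) u := hu
    have h2 := (grs_Hon_smul X g (u := g⁻¹ • u) hd.1 hd.2.1).1 (by rwa [smul_inv_smul])
    exact h2

/-- the bands -/
theorem grs_finOrb_BN (hH : ST_HON) : FinOrb G X.BN := by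
  have h1 : FinOrb G {p : (X.V × X.V × X.V) × X.U |
      p.1 ∈ {p : X.V × X.V × X.V | X.K.tri p.1 p.2.1 p.2.2} ∧
        p.2 ∈ {w : X.U | (⟨p.1.1, p.1.2.1, p.1.2.2, w, true⟩ : Band G X) ∈ X.BN}} := by
    refine grs_finOrb_sigma (S := {p : X.V × X.V × X.V | X.K.tri p.1 p.2.1 p.2.2})
      (fun p => {w : X.U | (⟨p.1, p.2.1, p.2.2, w, true⟩ : Band G X) ∈ X.BN})
      (grs_finOrb_tri X.K) ?_ ?_
    · rintro ⟨x, y, z⟩ hd
      have key : ∀ y' : X.V, ({w | X.FC2 x y' ∧ X.Hon x y' w} : Set X.U).Finite := by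
        intro y'
        by_cases h : X.FC2 x y'
        · exact (hH G X x y' h).2.2.2.2.2.1.subset (fun w hw => hw.2)
        · exact Set.Finite.subset Set.finite_empty (fun w hw => h hw.1)
      refine ((key y).union (key z)).subset ?_
      intro w hw
      have hs := grs_BN_sides X hw
      obtain ⟨q1, q2, q3, q4, q5⟩ := hw
      rcases q5 with q5 | q5
      · exact Or.inl ⟨⟨hs.1, q5.1, fun h => hs.2.2.1 (congrFun h w)⟩, q5.2⟩
      · exact Or.inr ⟨⟨hs.2.1, q5.1, fun h => hs.2.2.2 (congrFun h w)⟩, q5.2⟩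
    · rintro g ⟨x, y, z⟩ hd w hw
      have h1 : (⟨g • x, g • y, g • z, w, true⟩ : Band G X) ∈ X.BN := hw
      have h2 := grs_BN_smul' X g⁻¹ h1
      have h3 : g⁻¹ • (⟨g • x, g • y, g • z, w, true⟩ : Band G X) =
          ⟨x, y, z, g⁻¹ • w, true⟩ := by
        show (⟨g⁻¹ • g • x, g⁻¹ • g • y, g⁻¹ • g • z, g⁻¹ • w, true⟩ : Band G X) = _
        rw [inv_smul_smul, inv_smul_smul, inv_smul_smul]
      rw [h3] at h2
      exact h2
  have h2 : ∀ o : Bool, FinOrb G {b : Band G X | b ∈ X.BN ∧ b.o = o} := by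
    intro o
    refine grs_finOrb_image
      (fun p : (X.V × X.V × X.V) × X.U => (⟨p.1.1, p.1.2.1, p.1.2.2, p.2, o⟩ : Band G X))
      h1 (fun g a _ => rfl) ?_
    rintro ⟨x, y, z, w, o'⟩ ⟨hb, ho⟩
    have ho' : o' = o := ho
    subst ho'
    exact ⟨((x, y, z), w), ⟨hb.1, hb⟩, rfl⟩
  refine grs_finOrb_mono (grs_finOrb_union (h2 true) (h2 false)) ?_
  intro b hb
  cases hbo : b.o
  · exact Or.inr ⟨hb, hbo⟩
  · exact Or.inl ⟨hb, hbo⟩

/-- on the axis `w` is `N v u` or `M v u` -/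
theorem grs_Ax2_cases {D : Setup G} {K : Cx G} (P : Pts D K) {v : K.V} {u w : D.U}
    (h : Ax2 P v u w) : P.N v u ≠ P.M v u ∧ (w = P.N v u ∨ w = P.M v u) := by
  rcases h with ⟨h1, h2, h3⟩ | ⟨h1, h2, h3⟩
  · refine ⟨fun h => ?_, Or.inl h1.symm⟩
    have hadj : D.T.Adj u w := by
      rcases (P.fN v).1 u with h4 | h4
      · exact absurd h4 h3
      · rwa [h1] at h4
    have h5 : P.M v u = w := by rw [← h, h1]
    exact ((P.fM v).2 u w hadj).1 h5 h2
  · refine ⟨fun h => ?_, Or.inr h2.symm⟩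
    have hadj : D.T.Adj w u := by
      rcases (P.fN v).1 w with h4 | h4
      · exact absurd h4 h3
      · rwa [h1] at h4
    have h5 : P.N v u = w := by rw [h, h2]
    exact ((P.fN v).2 w u hadj).1 h1 h5

/-- neighbours on the axis -/
theorem grs_Ax2_N {D : Setup G} {K : Cx G} (P : Pts D K) {v : K.V} {u : D.U}
    (hv : ¬ EllV D K v) (h : P.N v u ≠ P.M v u) : Ax P v u (P.N v u) :=
  ⟨rfl, grs_field_back (P.fM v) (P.fN v) h.symm ((P.hyp v hv).1 u), (P.hyp v hv).1 u⟩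

theorem grs_Ax2_M {D : Setup G} {K : Cx G} (P : Pts D K) {v : K.V} {u : D.U}
    (hv : ¬ EllV D K v) (h : P.N v u ≠ P.M v u) : Ax P v (P.M v u) u :=
  ⟨grs_field_back (P.fN v) (P.fM v) h ((P.hyp v hv).2.1 u), rfl, (P.hyp v hv).1 _⟩

/-- the axis is finite modulo the stabilizer -/
theorem grs_axis_fin (hC : ST_TFC) {D : Setup G} {K : Cx G} (P : Pts D K) {v : K.V}
    (hv : ¬ EllV D K v) : ∃ A : Set (D.U × D.U), A.Finite ∧ ∀ u w, Ax2 P v u w →
      ∃ g : G, g • v = v ∧ ∃ p ∈ A, g • p.1 = u ∧ g • p.2 = w := by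
  obtain ⟨hN, hM, ⟨z, k, hz, hzi, hk, hax⟩, ⟨u1, hu1⟩⟩ := P.hyp v hv
  have hzv : z • v = v := by
    have : z ∈ stabilizer G v := by rw [hz]; exact Subgroup.mem_zpowers z
    exact this
  have stepN : ∀ x, P.N v x ≠ P.M v x → P.N v (P.N v x) ≠ P.M v (P.N v x) := by
    intro x hx
    rw [grs_field_back (P.fM v) (P.fN v) hx.symm (hN x)]
    have hadj : D.T.Adj x (P.N v x) := by
      rcases (P.fN v).1 x with h4 | h4
      · exact absurd h4 (hN x)
      · exact h4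
    exact ((P.fN v).2 x (P.N v x) hadj).1 rfl
  have stepM : ∀ x, P.N v x ≠ P.M v x → P.N v (P.M v x) ≠ P.M v (P.M v x) := by
    intro x hx
    rw [grs_field_back (P.fN v) (P.fM v) hx (hM x)]
    have hadj : D.T.Adj x (P.M v x) := by
      rcases (P.fM v).1 x with h4 | h4
      · exact absurd h4 (hM x)
      · exact h4
    exact (((P.fM v).2 x (P.M v x) hadj).1 rfl).symm
  have iterN : ∀ (m : ℕ) x, P.N v x ≠ P.M v x →
      P.N v ((P.N v)^[m] x) ≠ P.M v ((P.N v)^[m] x) := by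
    intro m
    induction m with
    | zero => intro x hx; exact hx
    | succ m ih =>
      intro x hx
      rw [Function.iterate_succ_apply]
      exact ih _ (stepN x hx)
  have iterM : ∀ (m : ℕ) x, P.N v x ≠ P.M v x →
      P.N v ((P.M v)^[m] x) ≠ P.M v ((P.M v)^[m] x) := by
    intro m
    induction m with
    | zero => intro x hx; exact hx
    | succ m ih =>
      intro x hx
      rw [Function.iterate_succ_apply]
      exact ih _ (stepM x hx)
  have back : ∀ (m : ℕ) x, P.N v x ≠ P.M v x → (P.N v)^[m] ((P.M v)^[m] x) = x := by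
    intro m
    induction m with
    | zero => intro x hx; rfl
    | succ m ih =>
      intro x hx
      rw [Function.iterate_succ_apply', Function.iterate_succ_apply (f := P.M v),
        ih _ (stepM x hx), grs_field_back (P.fN v) (P.fM v) hx (hM x)]
  have zpow : ∀ (q : ℕ) x, P.N v x ≠ P.M v x → z ^ q • x = (P.N v)^[k * q] x := by
    intro q
    induction q with
    | zero => intro x hx; simp
    | succ q ih =>
      intro x hx
      rw [pow_succ', mul_smul, ih x hx, hax _ (iterN _ x hx), ← Function.iterate_add_apply]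
      congr 1
      ring
  have zfix : ∀ q : ℕ, z ^ q • v = v := by
    intro q
    have h1 : z ∈ stabilizer G v := hzv
    exact Subgroup.pow_mem _ h1 q
  -- every vertex of the axis is a translate of one of the first `k`
  have cover : ∀ u, P.N v u ≠ P.M v u →
      ∃ g : G, g • v = v ∧ ∃ r, r < k ∧ g • ((P.N v)^[r] u1) = u := by
    have c1 : ∀ m : ℕ, ∃ g : G, g • v = v ∧ ∃ r, r < k ∧
        g • ((P.N v)^[r] u1) = (P.N v)^[m] u1 := by
      intro m
      refine ⟨z ^ (m / k), zfix _, m % k, Nat.mod_lt _ hk, ?_⟩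
      rw [zpow _ _ (iterN _ _ hu1), ← Function.iterate_add_apply, Nat.div_add_mod]
    intro u hu
    have hO : ∀ x, P.N v x ≠ P.M v x → OnI (P.N v) (P.M v) x := fun x hx h => absurd h hx
    obtain ⟨m, hm⟩ := (hC D.U D.T D.tree (P.N v) (P.M v) (P.fN v) (P.fM v)).1 u1 u
      (hO _ hu1) (hO _ hu)
    rcases hm with hm | hm
    · obtain ⟨g, hg, r, hr, h⟩ := c1 m
      exact ⟨g, hg, r, hr, h.trans hm.symm⟩
    · obtain ⟨g, hg, r, hr, h⟩ := c1 (k * m - m)
      have h1 : u1 = (P.N v)^[m] u := by rw [hm, back m u1 hu1]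
      have h2 : z ^ m • u = (P.N v)^[k * m - m] u1 := by
        rw [zpow m u hu, h1, ← Function.iterate_add_apply]
        congr 1
        have : m ≤ k * m := Nat.le_mul_of_pos_left m hk
        omega
      refine ⟨(z ^ m)⁻¹ * g, ?_, r, hr, ?_⟩
      · rw [mul_smul, hg, inv_smul_eq_iff]
        exact (zfix m).symm
      · rw [mul_smul, h, ← h2, inv_smul_smul]
  refine ⟨(fun r : ℕ => ((P.N v)^[r] u1, P.N v ((P.N v)^[r] u1))) '' Set.Iio k ∪
    (fun r : ℕ => ((P.N v)^[r] u1, P.M v ((P.N v)^[r] u1))) '' Set.Iio k,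
    ((Set.finite_Iio k).image _).union ((Set.finite_Iio k).image _), ?_⟩
  intro u w h
  obtain ⟨hu, hw⟩ := grs_Ax2_cases P h
  obtain ⟨g, hg, r, hr, hgu⟩ := cover u hu
  refine ⟨g, hg, ?_⟩
  rcases hw with hw | hw
  · refine ⟨_, Or.inl ⟨r, hr, rfl⟩, hgu, ?_⟩
    have := P.eN g v ((P.N v)^[r] u1)
    rw [hg, hgu] at this
    rw [hw]
    exact this.symm
  · refine ⟨_, Or.inr ⟨r, hr, rfl⟩, hgu, ?_⟩
    have := P.eM g v ((P.N v)^[r] u1)
    rw [hg, hgu] at this
    rw [hw]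
    exact this.symm

/-- cluster data -/
theorem grs_finOrb_Ax2 (hC : ST_TFC) {D : Setup G} {K : Cx G} (P : Pts D K) :
    FinOrb G {p : K.V × D.U × D.U | ¬ EllV D K p.1 ∧ Ax2 P p.1 p.2.1 p.2.2} := by
  obtain ⟨F, hF, hFS, hr⟩ := grs_reps (grs_finOrb_V K)
  have key : ∀ v : K.V, ∃ A : Set (D.U × D.U), A.Finite ∧ (¬ EllV D K v →
      ∀ u w, Ax2 P v u w → ∃ g : G, g • v = v ∧ ∃ p ∈ A, g • p.1 = u ∧ g • p.2 = w) := by
    intro v
    by_cases hv : EllV D K v
    · exact ⟨∅, Set.finite_empty, fun h => absurd hv h⟩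
    · obtain ⟨A, hA, h⟩ := grs_axis_fin hC P hv
      exact ⟨A, hA, fun _ => h⟩
  choose A hA hA2 using key
  have hfin : (⋃ v ∈ F, (fun p : D.U × D.U => (v, p)) '' (A v)).Finite :=
    hF.biUnion (fun v _ => (hA v).image _)
  refine grs_finOrb_of hfin ?_
  rintro ⟨v, u, w⟩ ⟨hv, hax⟩
  obtain ⟨f, hf, g, hgf⟩ := hr v (Set.mem_univ _)
  subst hgf
  have hv' : ¬ EllV D K f := fun h => hv (EllV_smul g h)
  have hax' : Ax2 P f (g⁻¹ • u) (g⁻¹ • w) := by
    have := (grs_Ax2_smul P g⁻¹ (g • f) u w).2 hax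
    rwa [inv_smul_smul] at this
  obtain ⟨g', hg', p, hp, h1, h2⟩ := hA2 f hv' _ _ hax'
  refine ⟨(f, p), ?_, g * g', ?_⟩
  · simp only [Set.mem_iUnion]
    exact ⟨f, hf, p, hp, rfl⟩
  · show ((g * g') • f, (g * g') • p.1, (g * g') • p.2) = (g • f, u, w)
    rw [mul_smul, mul_smul, mul_smul, hg', h1, h2, smul_inv_smul, smul_inv_smul]

/-- If a good component has its stabilizer contained in the pointwise stabilizer of a `T`-edge,
the stabilizer is trivial. -/
theorem grs_triv {Y N : Type} [MulAction G N] (hI : ST_INF) (D : Setup G) (NY : Set Y)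
    (s t : Y → Option N) (p : N) (hfree : ∀ g : G, g • p = p → g = 1)
    (hgood : goodR NY s t p) {u w : D.U} (hadj : D.T.Adj u w) {g : G}
    (hg : g • compR NY s t p = compR NY s t p) (hu : g • u = u) (hw : g • w = w) : g = 1 := by
  obtain ⟨z, hz, hst⟩ := (hI G D).2.1 u w hadj
  have hmem : g ∈ Subgroup.zpowers z := by
    rw [← hst]
    exact ⟨hu, hw⟩
  have hpow : ∀ n : ℕ, g ^ n • p ∈ compR NY s t p := by
    intro n
    have h1 : g ^ n • compR NY s t p = compR NY s t p := by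
      have h2 : g ∈ stabilizer G (compR NY s t p) := hg
      exact Subgroup.pow_mem _ h2 n
    rw [← h1]
    exact Set.smul_mem_smul_set Relation.ReflTransGen.refl
  have hfo : IsOfFinOrder g := by
    by_contra hno
    have hinj : Function.Injective (fun n : ℕ => g ^ n • p) := by
      intro m n hmn
      have h1 : g ^ m • p = g ^ n • p := hmn
      have h2 : ((g ^ n)⁻¹ * g ^ m) • p = p := by
        rw [mul_smul, h1, inv_smul_smul]
      have h3 := hfree _ h2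
      have h4 : g ^ m = g ^ n := (inv_mul_eq_one.1 h3).symm
      exact (injective_pow_iff_not_isOfFinOrder.2 hno) h4
    exact (Set.infinite_of_injective_forall_mem hinj hpow) hgood.1
  obtain ⟨m, rfl⟩ := Subgroup.mem_zpowers_iff.1 hmem
  by_contra hne
  have hm : m ≠ 0 := fun h => hne (by rw [h, zpow_zero])
  obtain ⟨n, hn, hn1⟩ := isOfFinOrder_iff_pow_eq_one.1 hfo
  apply hz
  rw [isOfFinOrder_iff_zpow_eq_one]
  refine ⟨m * n, mul_ne_zero hm (by exact_mod_cast hn.ne'), ?_⟩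
  rw [zpow_mul, zpow_natCast]
  exact hn1

end Pool.Agent.Helper93.HZ
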